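import Pool.Agent.J6H49.SY.Z2

/-!
# Module INST of project S2 of helper49: the formulas of systems of equations
-/

set_option autoImplicit false

namespace Pool.Agent.J6H76.S2

open Pool.Agent.J6H49.SY (add toZ par)
open Pool.Agent.J6H49.SY.Z2

variable {ι : Type} {m n q : ℕ}

theorem X_iff (f : Fin q → Fin 3 → Fin n) (ε : Fin n × Fin 3 ↪ ι) (b : Fin q → Bool)
    (c : Clause ι m) : X f ε b c = true ↔ IsCl f ε b c := by
  classical
  unfold X
  exact decide_eq_true_iff

theorem X_eq (f : Fin q → Fin 3 → Fin n) (ε : Fin n × Fin 3 ↪ ι) (b b' : Fin q → Bool)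
    (c c' : Clause ι m) (h : IsCl f ε b c ↔ IsCl f ε b' c') : X f ε b c = X f ε b' c' := by
  rw [Bool.eq_iff_iff, X_iff, X_iff]
  exact h

theorem mv_mv (y : ι → Bool) (w : Vr ι m) : mv y (mv y w) = w := by
  rcases w with ⟨i, x⟩ | j
  · show (Sum.inl (i, (x ^^ y i) ^^ y i) : Vr ι m) = Sum.inl (i, x)
    rw [Bool.xor_assoc, Bool.xor_self, Bool.xor_false]
  · rfl

theorem mc_mc (y : ι → Bool) (c : Clause ι m) : mc y (mc y c) = c := by
  funext k
  show (mv y (mv y (c k).1), (c k).2) = c k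
  rw [mv_mv]

theorem step (f : Fin q → Fin 3 → Fin n) (ε : Fin n × Fin 3 ↪ ι) (b : Fin q → Bool)
    (y : ι → Bool) (c : Clause ι m) (hc : IsCl f ε b c) :
    IsCl f ε (add f b fun e => y (ε e)) (mc y c) := by
  obtain ⟨v, τ, g, hc, hp⟩ := hc
  refine ⟨v, fun t => τ t ^^ y (ε (f v t, t)), g, fun t => ?_, ?_⟩
  · show (mv y (c t).1, (c t).2) = _
    rw [hc t]
    rfl
  · show _ = (b v ^^ ((y (ε (f v 0, 0)) ^^ y (ε (f v 1, 1))) ^^ y (ε (f v 2, 2))))
    rw [← hp]
    unfold par
    beta_reduce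
    generalize τ 0 = a0
    generalize τ 1 = a1
    generalize τ 2 = a2
    generalize g 0 = g0
    generalize g 1 = g1
    generalize g 2 = g2
    generalize y (ε (f v 0, 0)) = y0
    generalize y (ε (f v 1, 1)) = y1
    generalize y (ε (f v 2, 2)) = y2
    revert a0 a1 a2 g0 g1 g2 y0 y1 y2
    decide

theorem add_add (f : Fin q → Fin 3 → Fin n) (b : Fin q → Bool) (y : Fin n × Fin 3 → Bool) :
    add f (add f b y) y = b := by
  funext v
  show ((b v ^^ ((y (f v 0, 0) ^^ y (f v 1, 1)) ^^ y (f v 2, 2))) ^^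
    ((y (f v 0, 0) ^^ y (f v 1, 1)) ^^ y (f v 2, 2))) = b v
  rw [Bool.xor_assoc, Bool.xor_self, Bool.xor_false]

theorem part_one (f : Fin q → Fin 3 → Fin n) (ε : Fin n × Fin 3 ↪ ι)
    (y : ι → Bool) (b : Fin q → Bool) :
    act y (X (m := m) f ε b) = X f ε (add f b fun e => y (ε e)) := by
  funext c
  unfold act
  apply X_eq
  constructor
  · intro hc
    have h := step f ε b y _ hc
    rwa [mc_mc] at h
  · intro hc
    have h := step f ε _ y _ hc
    rwa [add_add] at h

theorem part_two (f : Fin q → Fin 3 → Fin n) (ε : Fin n × Fin 3 ↪ ι) :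
    Sat (X (m := m) f ε fun _ => false) := by
  refine ⟨fun w => Sum.elim (fun p => p.2) (fun _ => false) w, fun c hc => ?_⟩
  have hc' : IsCl f ε (fun _ => false) c := (X_iff f ε _ c).1 hc
  obtain ⟨v, τ, g, hc, hp⟩ := hc'
  by_contra hcon
  push Not at hcon
  have h1 : ∀ t, τ t = !g t := by
    intro t
    have h2 := hcon t
    rw [hc t] at h2
    change τ t ≠ g t at h2
    cases h3 : τ t <;> cases h4 : g t <;> simp_all
  unfold par at hp
  rw [h1 0, h1 1, h1 2] at hp
  revert hp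
  cases g 0 <;> cases g 1 <;> cases g 2 <;> simp

/-- A unit vector is in `M` if its coordinate is zero for all exchanges orthogonal to `M`. -/
theorem single_mem [Fintype ι] [DecidableEq ι] (M : Submodule (ZMod 2) (ι → ZMod 2)) (i : ι)
    (h : ∀ y : ι → Bool, (∀ c' ∈ M, dot c' y = 0) → y i = false) :
    (Pi.single i 1 : ι → ZMod 2) ∈ M := by
  by_contra hn
  obtain ⟨φ, hφ, hM⟩ := M.exists_dual_map_eq_bot_of_notMem hn inferInstance
  have h0 : ∀ c' ∈ M, φ c' = 0 := by
    intro c' hc'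
    have : φ c' ∈ M.map φ := Submodule.mem_map_of_mem hc'
    rw [hM] at this
    exact (Submodule.mem_bot _).1 this
  have htoZ : ∀ z : ZMod 2, toZ (decide (z = 1)) = z := by
    decide
  have hdot : ∀ c' : ι → ZMod 2, dot c' (fun j => decide (φ (Pi.single j 1) = 1)) = φ c' := by
    intro c'
    unfold dot
    have h1 : c' = ∑ j, c' j • (Pi.single j 1 : ι → ZMod 2) := by
      conv_lhs => rw [← Finset.univ_sum_single c']
      refine Finset.sum_congr rfl fun j _ => ?_
      rw [← Pi.single_smul, smul_eq_mul, mul_one]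
    conv_rhs => rw [h1, map_sum]
    refine Finset.sum_congr rfl fun j _ => ?_
    rw [map_smul, smul_eq_mul, htoZ]
  have h2 := h (fun j => decide (φ (Pi.single j 1) = 1)) fun c' hc' => by rw [hdot, h0 c' hc']
  apply hφ
  rw [← htoZ (φ (Pi.single i 1)), h2]
  rfl

theorem part_three [Fintype ι] [DecidableEq ι] (f : Fin q → Fin 3 → Fin n) (ε : Fin n × Fin 3 ↪ ι)
    (M : Submodule (ZMod 2) (ι → ZMod 2)) (c : Clause ι m)
    (hfix : ∀ y : ι → Bool, (∀ c' ∈ M, dot c' y = 0) → mc y c = c)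
    (b b' : Fin q → Bool)
    (hb : ∀ v, (∀ t, (Pi.single (ε (f v t, t)) 1 : ι → ZMod 2) ∈ M) → b v = b' v) :
    X f ε b c = X f ε b' c := by
  have key : ∀ b b' : Fin q → Bool,
      (∀ v, (∀ t, (Pi.single (ε (f v t, t)) 1 : ι → ZMod 2) ∈ M) → b v = b' v) →
      IsCl f ε b c → IsCl f ε b' c := by
    intro b b' hbb hc
    obtain ⟨v, τ, g, hc, hp⟩ := hc
    refine ⟨v, τ, g, hc, ?_⟩
    rw [hp]
    apply hbb
    intro t
    apply single_mem
    intro y hy
    have h1 := congrFun (hfix y hy) t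
    have h2 : mv y (c t).1 = (c t).1 := congrArg Prod.fst h1
    rw [hc t] at h2
    have h3 : (ε (f v t, t), τ t ^^ y (ε (f v t, t))) = (ε (f v t, t), τ t) := Sum.inl.inj h2
    have h4 : (τ t ^^ y (ε (f v t, t))) = τ t := congrArg Prod.snd h3
    revert h4
    cases τ t <;> cases y (ε (f v t, t)) <;> simp
  exact X_eq f ε b b' c c ⟨key b b' hb, key b' b fun v hv => (hb v hv).symm⟩

theorem main : S_INST3 := fun _ _ _ _ _ _ f ε =>
  ⟨fun y b => part_one f ε y b, part_two f ε,
    fun M c hfix b b' hb => part_three f ε M c hfix b b' hb⟩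

end Pool.Agent.J6H76.S2
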